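import Pool.Agent.Helper17.CT.Defs

set_option autoImplicit false

/-! # CT-22: the triangle replacement step -/

namespace Pool.Agent.Helper17.CT

section StkStep

variable {D : Type} (M : CMap D)

theorem veq_refl (x : D) : M.VEq x x := Or.inl rfl

theorem veq_symm {x y : D} (h : M.VEq x y) : M.VEq y x := by
  rcases h with h | h | h
  · exact Or.inl h.symm
  · exact Or.inr (Or.inr (by rw [h, M.s3]))
  · exact Or.inr (Or.inl (by rw [h, M.s3]))

theorem veq_trans {x y z : D} (h : M.VEq x y) (h' : M.VEq y z) : M.VEq x z := by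
  rcases h with h | h | h <;> rcases h' with h' | h' | h' <;> subst h <;> subst h'
  · exact Or.inl rfl
  · exact Or.inr (Or.inl rfl)
  · exact Or.inr (Or.inr rfl)
  · exact Or.inr (Or.inl rfl)
  · exact Or.inr (Or.inr rfl)
  · exact Or.inl (M.s3 _)
  · exact Or.inr (Or.inr rfl)
  · exact Or.inl (M.s3 _)
  · exact Or.inr (Or.inl (by rw [M.s3]))

theorem veq_vset {X : D → Bool} (hX : M.VSet X) {x y : D} (h : M.VEq x y) : X y = X x := by
  rcases h with h | h | h <;> subst h
  · rfl
  · exact hX x
  · rw [hX, hX]

theorem veq_ncard (d : D) : {d' | M.VEq d d'}.ncard = 3 := by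
  rw [Set.ncard_eq_three]
  refine ⟨d, M.s d, M.s (M.s d), (M.s1 d).symm, ?_, (M.s1 (M.s d)).symm, ?_⟩
  · intro h
    have h1 := congrArg M.s h
    rw [M.s3] at h1
    exact M.s1 d h1
  · ext d'
    simp only [Set.mem_ofPred_eq, Set.mem_insert_iff, Set.mem_singleton_iff]
    rfl

theorem label_count [Finite D] {T : Type} [Finite T] (v : D → T) (hv : Function.Surjective v)
    (hiff : ∀ d d', v d = v d' ↔ M.VEq d d') (P : Set T) :
    {d | v d ∈ P}.ncard = 3 * P.ncard := by
  classical
  have _ := Fintype.ofFinite D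
  have _ := Fintype.ofFinite T
  have h1 : {d | v d ∈ P}.ncard = (Finset.univ.filter (fun d => v d ∈ P)).card := by
    rw [← Set.ncard_coe_finset]
    congr 1
    ext d; simp
  have h2 : P.ncard = (Finset.univ.filter (fun x => x ∈ P)).card := by
    rw [← Set.ncard_coe_finset]
    congr 1
    ext d; simp
  rw [h1, h2, Finset.card_eq_sum_card_fiberwise (f := v)
    (t := Finset.univ.filter (fun x => x ∈ P)) (by
      intro d hd
      simpa using hd)]
  rw [Finset.sum_congr rfl (g := fun _ => 3) ?_, Finset.sum_const, smul_eq_mul, mul_comm]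
  intro x hx
  obtain ⟨d, rfl⟩ := hv x
  rw [← veq_ncard M d, ← Set.ncard_coe_finset]
  congr 1
  ext d'
  have hx' : v d ∈ P := by simpa using hx
  simp only [Finset.coe_filter, Finset.mem_filter, Finset.mem_univ, true_and,
    Set.mem_ofPred_eq]
  constructor
  · rintro ⟨_, h⟩
    exact (hiff d d').1 h.symm
  · intro h
    have h3 := (hiff d d').2 h
    exact ⟨h3 ▸ hx', h3.symm⟩

/-- the vertices of a cubic map can be numbered -/
theorem exists_label [Finite D] (N : ℕ) (hN : Nat.card D = 3 * N) :
    ∃ v : D → Fin N, Function.Surjective v ∧ ∀ d d', v d = v d' ↔ M.VEq d d' := by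
  let S : Setoid D := ⟨M.VEq, veq_refl M, veq_symm M, veq_trans M⟩
  have hiff : ∀ d d', (Quotient.mk S d = Quotient.mk S d') ↔ M.VEq d d' :=
    fun d d' => Quotient.eq
  have h1 := label_count M (Quotient.mk S) Quotient.mk_surjective hiff Set.univ
  have h2 : {d | Quotient.mk S d ∈ (Set.univ : Set (Quotient S))} = (Set.univ : Set D) := by
    ext d; simp
  rw [h2, Set.ncard_univ, Set.ncard_univ, hN] at h1
  have h3 : Nat.card (Quotient S) = N := by omega
  let e : Quotient S ≃ Fin N := Finite.equivFinOfCardEq h3
  refine ⟨fun d => e (Quotient.mk S d), ?_, ?_⟩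
  · intro x
    obtain ⟨q, hq⟩ := e.surjective x
    obtain ⟨d, hd⟩ := Quotient.mk_surjective q
    exact ⟨d, by simp only [hd, hq]⟩
  · intro d d'
    rw [e.injective.eq_iff]
    exact hiff d d'

variable {M}

theorem contr_sub {X : D → Bool} (hX : M.VSet X)
    {M' : CMap {d : D // X d = true ∨ X (M.a d) = true}} (h : M.IsContr X M')
    {d d' : {d : D // X d = true ∨ X (M.a d) = true}} (hd : X d.1 = true) :
    M'.VEq d d' ↔ M.VEq d.1 d'.1 := by
  have h1 : (M'.s d).1 = M.s d.1 := h.hs d hd
  have hd2 : X (M'.s d).1 = true := by rw [h1, hX]; exact hd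
  have h2 : (M'.s (M'.s d)).1 = M.s (M.s d.1) := by rw [h.hs _ hd2, h1]
  unfold CMap.VEq
  rw [← h2, ← h1, Subtype.ext_iff, Subtype.ext_iff, Subtype.ext_iff]

theorem contr_card [Finite D] {X : D → Bool} (h3 : M.bd X = 3)
    (h9 : Nat.card {d : D // X d = false} = 9) :
    Nat.card D = Nat.card {d : D // X d = true ∨ X (M.a d) = true} + 6 ∧
      {d | X d = false ∧ X (M.a d) = true}.ncard = 3 ∧
      {d | X d = false ∧ X (M.a d) = false}.ncard = 6 := by
  have hC : {d | X d = false}.ncard = 9 := h9
  have hB' : {d | X d = true ∧ X (M.a d) = false}.ncard = 3 := h3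
  have hB : {d | X d = false ∧ X (M.a d) = true}.ncard = 3 := by
    rw [← hB']
    have : {d | X d = false ∧ X (M.a d) = true} = M.a '' {d | X d = true ∧ X (M.a d) = false} := by
      ext d
      constructor
      · rintro ⟨h1, h2⟩
        exact ⟨M.a d, ⟨h2, by rw [M.a2]; exact h1⟩, M.a2 d⟩
      · rintro ⟨d', ⟨h1, h2⟩, rfl⟩
        exact ⟨h2, by rw [M.a2]; exact h1⟩
    rw [this]
    exact Set.ncard_image_of_injective _ (fun x y hxy => by
      rw [← M.a2 x, hxy, M.a2])
  have hI : {d | X d = false ∧ X (M.a d) = false}.ncard = 6 := by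
    have h1 : {d | X d = false} = {d | X d = false ∧ X (M.a d) = true} ∪
        {d | X d = false ∧ X (M.a d) = false} := by
      ext d
      simp only [Set.mem_union, Set.mem_ofPred_eq]
      constructor
      · intro h
        by_cases h2 : X (M.a d) = true
        · exact Or.inl ⟨h, h2⟩
        · exact Or.inr ⟨h, by simpa using h2⟩
      · rintro (h | h) <;> exact h.1
    have h2 : Disjoint {d | X d = false ∧ X (M.a d) = true}
        {d | X d = false ∧ X (M.a d) = false} := by
      rw [Set.disjoint_left]
      rintro d ⟨_, h⟩ ⟨_, h'⟩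
      rw [h] at h'
      exact absurd h' (by decide)
    rw [h1, Set.ncard_union_eq h2, hB] at hC
    omega
  refine ⟨?_, hB, hI⟩
  have h1 : Nat.card D = {d | X d = true}.ncard + {d | X d = false}.ncard := by
    rw [← Set.ncard_univ, ← Set.ncard_union_eq]
    · congr 1
      ext d
      simp only [Set.mem_univ, Set.mem_union, Set.mem_ofPred_eq, true_iff]
      cases X d <;> simp
    · rw [Set.disjoint_left]
      intro d h h'
      have h1 : X d = true := h
      have h2 : X d = false := h'
      rw [h1] at h2
      exact absurd h2 (by decide)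
  have h2 : Nat.card {d : D // X d = true ∨ X (M.a d) = true} =
      {d | X d = true}.ncard + {d | X d = false ∧ X (M.a d) = true}.ncard := by
    change {d | X d = true ∨ X (M.a d) = true}.ncard = _
    rw [← Set.ncard_union_eq]
    · congr 1
      ext d
      simp only [Set.mem_union, Set.mem_ofPred_eq]
      cases hx : X d <;> simp
    · rw [Set.disjoint_left]
      rintro d h ⟨h', _⟩
      have h1 : X d = true := h
      rw [h1] at h'
      exact absurd h' (by decide)
  omega

/-- CT-22 -/
theorem stk_step {D : Type} [Finite D] (M : CMap D) (hs : M.Simple) (X : D → Bool)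
    (hX : M.VSet X) (h3 : M.bd X = 3) (h9 : Nat.card {d : D // X d = false} = 9)
    (M' : CMap {d : D // X d = true ∨ X (M.a d) = true}) (h : M.IsContr X M') (hs' : M'.Simple)
    (hM' : M'.Stk) : M.Stk := by
  classical
  obtain ⟨n, Γ, hΓ0, hΓc, hΓs, v', hv's, hv'i, hv'a⟩ := hM'
  obtain ⟨hcard, hB, hI⟩ := contr_card h3 h9
  have hcard' : Nat.card {d : D // X d = true ∨ X (M.a d) = true} = 3 * (4 + 2 * n) := by
    have h1 := label_count M' v' hv's hv'i Set.univ
    have h2 : {d | v' d ∈ (Set.univ : Set (Fin (4 + 2 * n)))} = Set.univ := by ext d; simp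
    rw [h2, Set.ncard_univ, Set.ncard_univ] at h1
    rw [h1, Nat.card_eq_fintype_card, Fintype.card_fin]
  obtain ⟨v, hvs, hvi⟩ := exists_label M (4 + 2 * (n + 1)) (by rw [hcard, hcard']; ring)
  -- the star
  obtain ⟨d0, hd0, hd0'⟩ : ∃ d, X d = false ∧ X (M.a d) = true := by
    have : ({d | X d = false ∧ X (M.a d) = true} : Set D).Nonempty := by
      rw [← Set.ncard_pos (Set.toFinite _), hB]; norm_num
    exact this
  let st : Fin (4 + 2 * n) := v' ⟨d0, Or.inr hd0'⟩
  let p : D → Fin (4 + 2 * n) := fun d => if hd : X d = true then v' ⟨d, Or.inl hd⟩ else st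
  have hpt : ∀ d (hd : X d = true), p d = v' ⟨d, Or.inl hd⟩ := fun d hd => dif_pos hd
  have hpf : ∀ d, X d = false → p d = st := fun d hd => dif_neg (by rw [hd]; decide)
  have hp' : ∀ d : {d : D // X d = true ∨ X (M.a d) = true}, p d.1 = v' d := by
    intro d
    by_cases hd : X d.1 = true
    · rw [hpt d.1 hd]
    · have hd' : X d.1 = false := by simpa using hd
      rw [hpf d.1 hd']
      exact (hv'i _ _).2 (h.star _ _ hd0 hd')
  have hpst : ∀ d, p d = st → X d = false := by
    intro d hd
    by_contra hne
    have hx : X d = true := by simpa using hne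
    rw [hpt d hx] at hd
    have h1 : M'.VEq ⟨d, Or.inl hx⟩ ⟨d0, Or.inr hd0'⟩ := (hv'i _ _).1 hd
    rw [contr_sub hX h (by exact hx)] at h1
    have h2 := veq_vset M hX h1
    rw [hd0, hx] at h2
    exact absurd h2 (by decide)
  have hpinv : ∀ d d', M.VEq d d' → p d = p d' := by
    intro d d' hdd
    have hx := veq_vset M hX hdd
    by_cases hd : X d = true
    · rw [hd] at hx
      rw [hpt d hd, hpt d' hx]
      exact (hv'i _ _).2 ((contr_sub hX h (by exact hd)).2 hdd)
    · have hd' : X d = false := by simpa using hd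
      rw [hd'] at hx
      rw [hpf d hd', hpf d' hx]
  choose g hg using hvs
  let f : Fin (4 + 2 * (n + 1)) → Fin (4 + 2 * n) := fun x => p (g x)
  have hf : ∀ d, f (v d) = p d := fun d => hpinv _ _ ((hvi _ _).1 (hg (v d)))
  -- the new graph
  let G : SimpleGraph (Fin (4 + 2 * (n + 1))) :=
    { Adj := fun x y => ∃ d, v d = x ∧ v (M.a d) = y
      symm := ⟨by
        rintro x y ⟨d, hd, hd'⟩
        exact ⟨M.a d, hd', by rw [M.a2]; exact hd⟩⟩
      loopless := ⟨by
        rintro x ⟨d, hd, hd'⟩
        exact hs.1 d ((hvi _ _).1 (hd.trans hd'.symm))⟩ }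
  have hGa : ∀ x y, G.Adj x y ↔ ∃ d, v d = x ∧ v (M.a d) = y := fun _ _ => Iff.rfl
  have hGc : ∀ x, (G.neighborSet x).ncard = 3 := by
    intro x
    have h1 : G.neighborSet x = (fun d => v (M.a d)) '' {d | M.VEq (g x) d} := by
      ext y
      rw [SimpleGraph.mem_neighborSet, hGa]
      constructor
      · rintro ⟨d, hd, hd'⟩
        exact ⟨d, (hvi _ _).1 ((hg x).trans hd.symm), hd'⟩
      · rintro ⟨d, hd, hd'⟩
        exact ⟨d, ((hvi _ _).2 hd).symm.trans (hg x), hd'⟩
    rw [h1, Set.InjOn.ncard_image, veq_ncard]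
    intro d hd d' hd' hdd
    exact hs.2 d d' (veq_trans M (veq_symm M hd) hd') ((hvi _ _).1 hdd)
  -- the fibre over the star
  have hP3 : (f ⁻¹' ({st} : Set (Fin (4 + 2 * n)))).ncard = 3 := by
    have h1 := label_count M v (fun x => ⟨g x, hg x⟩) hvi (f ⁻¹' {st})
    have h2 : {d | v d ∈ f ⁻¹' ({st} : Set (Fin (4 + 2 * n)))} = {d | X d = false} := by
      ext d
      simp only [Set.mem_preimage, Set.mem_singleton_iff, Set.mem_ofPred_eq, hf]
      exact ⟨hpst d, hpf d⟩
    have h4 : {d | X d = false}.ncard = 9 := h9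
    rw [h2, h4] at h1
    omega
  -- the adjacencies of `M'` seen in `M`
  have hadj : ∀ d, ¬ (X d = false ∧ X (M.a d) = false) → (Γ n).Adj (p d) (p (M.a d)) := by
    intro d hd
    have hmem : X d = true ∨ X (M.a d) = true := by
      by_contra hcon
      push Not at hcon
      exact hd ⟨by simpa using hcon.1, by simpa using hcon.2⟩
    rw [hv'a]
    refine ⟨⟨d, hmem⟩, (hp' _).symm, ?_⟩
    rw [← hp', h.ha]
  have htri : CMap.TriStep G (Γ n) := by
    refine ⟨f, st, hP3, ?_, ?_, ?_, ?_⟩
    · intro w hw
      obtain ⟨d', hd'⟩ := hv's w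
      have hx : X d'.1 = true := by
        by_contra hne
        have hx' : X d'.1 = false := by simpa using hne
        apply hw
        rw [← hd', ← hp', hpf _ hx']
      rw [Set.ncard_eq_one]
      refine ⟨v d'.1, ?_⟩
      ext x
      rw [Set.mem_preimage, Set.mem_singleton_iff, Set.mem_singleton_iff]
      constructor
      · intro hfx
        have h1 : p (g x) = w := hfx
        have hx2 : X (g x) = true := by
          by_contra hne
          have hx' : X (g x) = false := by simpa using hne
          exact hw (h1.symm.trans (hpf _ hx'))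
        rw [hpt _ hx2, ← hd'] at h1
        have h2 := (hv'i _ _).1 h1
        rw [contr_sub hX h (by exact hx2)] at h2
        rw [← hg x]
        exact (hvi _ _).2 h2
      · intro hxv
        rw [hxv, hf, hp', hd']
    · intro x y hxy
      obtain ⟨d, hd, hd'⟩ := (hGa x y).1 hxy
      rw [← hd, ← hd', hf, hf]
      by_cases hin : X d = false ∧ X (M.a d) = false
      · left
        rw [hpf _ hin.1, hpf _ hin.2]
      · exact Or.inr (hadj d hin)
    · -- the triangle
      intro x y hxy hx hy
      have _ := Fintype.ofFinite D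
      let P : Finset (Fin (4 + 2 * (n + 1))) := Finset.univ.filter (fun x => f x = st)
      have hPc : P.card = 3 := by
        rw [← hP3, ← Set.ncard_coe_finset]
        congr 1
        ext x; simp [P]
      let I : Finset D := Finset.univ.filter (fun d => X d = false ∧ X (M.a d) = false)
      have hIc : I.card = 6 := by
        rw [← hI, ← Set.ncard_coe_finset]
        congr 1
        ext d; simp [I]
      have himg : I.image (fun d => (v d, v (M.a d))) = P.offDiag := by
        apply Finset.eq_of_subset_of_card_le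
        · intro q hq
          obtain ⟨d, hd, rfl⟩ := Finset.mem_image.1 hq
          have hd2 := (Finset.mem_filter.1 hd).2
          rw [Finset.mem_offDiag]
          refine ⟨?_, ?_, ?_⟩
          · rw [Finset.mem_filter]
            exact ⟨Finset.mem_univ _, by rw [hf]; exact hpf _ hd2.1⟩
          · rw [Finset.mem_filter]
            exact ⟨Finset.mem_univ _, by rw [hf]; exact hpf _ hd2.2⟩
          · intro heq
            exact hs.1 d ((hvi _ _).1 heq)
        · rw [Finset.offDiag_card, hPc, Finset.card_image_of_injective, hIc]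
          intro d d' hdd
          have h1 := congrArg Prod.fst hdd
          have h2 := congrArg Prod.snd hdd
          exact hs.2 d d' ((hvi _ _).1 h1) ((hvi _ _).1 h2)
      have hmem : (x, y) ∈ P.offDiag := by
        rw [Finset.mem_offDiag]
        exact ⟨Finset.mem_filter.2 ⟨Finset.mem_univ _, hx⟩,
          Finset.mem_filter.2 ⟨Finset.mem_univ _, hy⟩, hxy⟩
      rw [← himg] at hmem
      obtain ⟨d, _, hd⟩ := Finset.mem_image.1 hmem
      exact (hGa x y).2 ⟨d, congrArg Prod.fst hd, congrArg Prod.snd hd⟩
    · intro a b hab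
      obtain ⟨d', hda, hdb⟩ := (hv'a a b).1 hab
      have hpa : p d'.1 = a := (hp' d').trans hda
      have hpb : p (M.a d'.1) = b := by rw [← h.ha, hp', hdb]
      refine ⟨s(v d'.1, v (M.a d'.1)), ⟨?_, ?_⟩, ?_⟩
      · rw [SimpleGraph.mem_edgeSet]
        exact ⟨d'.1, rfl, rfl⟩
      · rw [Sym2.map_mk]
        simp only [hf, hpa, hpb]
      · have key : ∀ d, p d = a → p (M.a d) = b → d = d'.1 := by
          intro d h1 h2
          have hmem : X d = true ∨ X (M.a d) = true := by
            by_contra hcon
            push Not at hcon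
            have e1 := hpf d (by simpa using hcon.1)
            have e2 := hpf (M.a d) (by simpa using hcon.2)
            apply hab.ne
            rw [← h1, ← h2, e1, e2]
          have h4 := hs'.2 ⟨d, hmem⟩ d'
            ((hv'i _ _).1 (by rw [← hp', h1, hda]))
            ((hv'i _ _).1 (by rw [hdb, ← hp', h.ha, h2]))
          exact congrArg Subtype.val h4
        rintro e ⟨he, hfe⟩
        induction e using Sym2.ind with
        | _ x y =>
          rw [SimpleGraph.mem_edgeSet] at he
          obtain ⟨d, hd, hd2⟩ := (hGa x y).1 he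
          rw [Sym2.map_mk] at hfe
          rw [← hd, ← hd2] at hfe ⊢
          simp only [hf] at hfe
          rw [Sym2.eq_iff] at hfe
          rcases hfe with ⟨h1, h2⟩ | ⟨h1, h2⟩
          · rw [key d h1 h2]
          · have h5 := key (M.a d) h2 (by rw [M.a2]; exact h1)
            rw [← h5, M.a2, Sym2.eq_swap]
  refine ⟨n + 1, Function.update Γ (n + 1) G, ?_, ?_, ?_, v, fun x => ⟨g x, hg x⟩, hvi, ?_⟩
  · rw [Function.update_of_ne (by omega), hΓ0]
  · intro k x
    by_cases hk : k = n + 1
    · subst hk
      rw [Function.update_self]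
      exact hGc x
    · rw [Function.update_of_ne hk]
      exact hΓc k x
  · intro k hk
    by_cases hk2 : k = n
    · subst hk2
      rw [Function.update_self, Function.update_of_ne (by omega)]
      exact htri
    · rw [Function.update_of_ne (by omega), Function.update_of_ne (by omega)]
      exact hΓs k (by omega)
  · rw [Function.update_self]
    exact hGa

end StkStep

end Pool.Agent.Helper17.CT
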